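import Pool.Agent.Helper25.HL.Goals3

/-!
Project HL (MP_03bcbb_an), packet HL-LB: upper bound of the level norm.
-/

set_option autoImplicit false

noncomputable section

namespace Pool.Agent.Helper3.HL

open Pool.Agent.Helper25.HL

theorem lb : S_LB := by
  intro p q σ J r _ z
  unfold lnm
  rw [Real.sq_sqrt (Finset.sum_nonneg fun j _ => by positivity)]
  have h1 : ∀ j, (Kj σ r j z) ^ 2 ≤ pq2 z := by
    intro j
    have h2 : Kj σ r j z ≤ Real.sqrt (pq2 z) := by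
      unfold Kj
      split_ifs
      · exact le_rfl
      · exact KK_le_e2 σ (r j) z
    calc (Kj σ r j z) ^ 2 ≤ (Real.sqrt (pq2 z)) ^ 2 :=
          pow_le_pow_left₀ (Kj_nn _ _ _ _) h2 2
      _ = pq2 z := Real.sq_sqrt (pq2_nn z)
  have hg : ∑ j ∈ Finset.range (J + 1), (4 : ℝ) ^ j / 4 ^ J ≤ 4 / 3 := by
    rw [← Finset.sum_div, geom_sum_eq (by norm_num)]
    have h4 : (0 : ℝ) < 4 ^ J := by positivity
    rw [div_le_iff₀ h4, pow_succ]
    have : (1 : ℝ) ≤ 4 ^ J := one_le_pow₀ (by norm_num)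
    norm_num
    linarith
  calc ∑ j ∈ Finset.range (J + 1), (4 : ℝ) ^ j / 4 ^ J * (Kj σ r j z) ^ 2
      ≤ ∑ j ∈ Finset.range (J + 1), (4 : ℝ) ^ j / 4 ^ J * pq2 z :=
        Finset.sum_le_sum fun j _ => mul_le_mul_of_nonneg_left (h1 j) (by positivity)
    _ = (∑ j ∈ Finset.range (J + 1), (4 : ℝ) ^ j / 4 ^ J) * pq2 z := by rw [Finset.sum_mul]
    _ ≤ 4 / 3 * pq2 z := mul_le_mul_of_nonneg_right hg (pq2_nn z)

end Pool.Agent.Helper3.HL
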