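import Pool.Agent.Helper25.HL.Goals1

/-!
Project HL (MP_03bcbb_an), packet HL-WP: light coordinates, the part of the coefficients.
-/

set_option autoImplicit false

noncomputable section

namespace Pool.Agent.Helper3.HL

open Pool.Agent.Helper25.HL

theorem core {ι : Type} [Fintype ι] (q : ℕ) (ϖ : ι → ℝ) (b : ι → Fin q → ℂ) (R η : ℝ)
    (hϖ : ∀ j, 0 ≤ ϖ j) (hη : 0 ≤ η) (hR : ∀ j, l1 (b j) ≤ R)
    (hs : ∀ s, ∑ j, ϖ j * ‖b j s‖ ≤ η) (v : ι → ℂ) :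
    Helper25.HL.sq (∑ j, (v j * (Real.sqrt (ϖ j) : ℂ)) • b j) ≤ R * η * ∑ j, ‖v j‖ ^ 2 := by
  have h1 : ∀ s, ‖(∑ j, (v j * (Real.sqrt (ϖ j) : ℂ)) • b j) s‖ ^ 2 ≤
      η * ∑ j, ‖v j‖ ^ 2 * ‖b j s‖ := by
    intro s
    have e1 : ‖(∑ j, (v j * (Real.sqrt (ϖ j) : ℂ)) • b j) s‖ ≤
        ∑ j, (Real.sqrt (ϖ j) * Real.sqrt ‖b j s‖) * (‖v j‖ * Real.sqrt ‖b j s‖) := by
      rw [Finset.sum_apply]
      refine (norm_sum_le _ _).trans (le_of_eq ?_)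
      refine Finset.sum_congr rfl fun j _ => ?_
      simp only [Pi.smul_apply, smul_eq_mul, norm_mul, Complex.norm_real, Real.norm_eq_abs,
        abs_of_nonneg (Real.sqrt_nonneg _)]
      have := Real.mul_self_sqrt (norm_nonneg (b j s))
      linear_combination (-(‖v j‖ * Real.sqrt (ϖ j))) * this
    have e2 : (∑ j, (Real.sqrt (ϖ j) * Real.sqrt ‖b j s‖) * (‖v j‖ * Real.sqrt ‖b j s‖)) ^ 2 ≤
        (∑ j, (Real.sqrt (ϖ j) * Real.sqrt ‖b j s‖) ^ 2) *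
          ∑ j, (‖v j‖ * Real.sqrt ‖b j s‖) ^ 2 :=
      Finset.sum_mul_sq_le_sq_mul_sq _ _ _
    have e3 : ∑ j, (Real.sqrt (ϖ j) * Real.sqrt ‖b j s‖) ^ 2 = ∑ j, ϖ j * ‖b j s‖ := by
      refine Finset.sum_congr rfl fun j _ => ?_
      rw [mul_pow, Real.sq_sqrt (hϖ j), Real.sq_sqrt (norm_nonneg _)]
    have e4 : ∑ j, (‖v j‖ * Real.sqrt ‖b j s‖) ^ 2 = ∑ j, ‖v j‖ ^ 2 * ‖b j s‖ := by
      refine Finset.sum_congr rfl fun j _ => ?_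
      rw [mul_pow, Real.sq_sqrt (norm_nonneg _)]
    rw [e3, e4] at e2
    have e5 : (0 : ℝ) ≤ ∑ j, ‖v j‖ ^ 2 * ‖b j s‖ :=
      Finset.sum_nonneg fun j _ => by positivity
    calc ‖(∑ j, (v j * (Real.sqrt (ϖ j) : ℂ)) • b j) s‖ ^ 2
        ≤ (∑ j, (Real.sqrt (ϖ j) * Real.sqrt ‖b j s‖) * (‖v j‖ * Real.sqrt ‖b j s‖)) ^ 2 :=
          pow_le_pow_left₀ (norm_nonneg _) e1 2
      _ ≤ _ := e2
      _ ≤ _ := mul_le_mul_of_nonneg_right (hs s) e5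
  unfold Helper25.HL.sq
  calc ∑ s, ‖(∑ j, (v j * (Real.sqrt (ϖ j) : ℂ)) • b j) s‖ ^ 2
      ≤ ∑ s, η * ∑ j, ‖v j‖ ^ 2 * ‖b j s‖ := Finset.sum_le_sum fun s _ => h1 s
    _ = η * ∑ j, ‖v j‖ ^ 2 * l1 (b j) := by
        rw [← Finset.mul_sum, Finset.sum_comm]
        congr 1
        refine Finset.sum_congr rfl fun j _ => ?_
        unfold l1
        rw [Finset.mul_sum]
    _ ≤ η * ∑ j, ‖v j‖ ^ 2 * R := by
        refine mul_le_mul_of_nonneg_left ?_ hη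
        exact Finset.sum_le_sum fun j _ => mul_le_mul_of_nonneg_left (hR j) (by positivity)
    _ = R * η * ∑ j, ‖v j‖ ^ 2 := by
        rw [← Finset.sum_mul]
        ring

theorem wp (h : S_ADJ) : S_WP := by
  intro κ ι _ _ t q ϖ b R η n hϖ hR0 hη ht hn hR hs
  calc ∑ i, Helper25.HL.sq (∑ j, (ip (t j) (t i) * (Real.sqrt (ϖ j) : ℂ)) • b j)
      ≤ ∑ i, R * η * ∑ j, ‖ip (t j) (t i)‖ ^ 2 :=
        Finset.sum_le_sum fun i _ => core q ϖ b R η hϖ hη hR hs (fun j => ip (t j) (t i))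
    _ ≤ ∑ i, R * η * Helper25.HL.sq (t i) := by
        refine Finset.sum_le_sum fun i _ => mul_le_mul_of_nonneg_left ?_ (mul_nonneg hR0 hη)
        have := h κ ι t 1 zero_le_one (fun v => by rw [one_mul]; exact ht v) (t i)
        rwa [one_mul] at this
    _ = R * η * ∑ i, Helper25.HL.sq (t i) := by rw [Finset.mul_sum]
    _ ≤ R * η * n := mul_le_mul_of_nonneg_left hn (mul_nonneg hR0 hη)

end Pool.Agent.Helper3.HL
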